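import Pool.Agent.Helper29.MM.Stmts_B3

/-!
# Project MM, block B3: calculus of `pd`, `H0`, `HB`
-/

open MeasureTheory Metric

namespace CM

namespace B3

variable {n : ℕ}

theorem pd_add (i : Fin n) {f g : E n → ℝ} (hf : Differentiable ℝ f) (hg : Differentiable ℝ g) :
    pd i (fun x => f x + g x) = fun x => pd i f x + pd i g x := by
  funext x
  simp only [pd]
  have h := ((hf x).hasFDerivAt.add (hg x).hasFDerivAt).fderiv
  have h2 : fderiv ℝ (fun x => f x + g x) x = fderiv ℝ f x + fderiv ℝ g x := h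
  rw [h2]; rfl

theorem pd_neg (i : Fin n) {f : E n → ℝ} :
    pd i (fun x => - f x) = fun x => - pd i f x := by
  funext x
  simp only [pd]
  have h2 : fderiv ℝ (fun x => - f x) x = - fderiv ℝ f x := fderiv_fun_neg
  rw [h2]; rfl

theorem pd_const_mul (i : Fin n) (a : ℝ) {f : E n → ℝ} (hf : Differentiable ℝ f) :
    pd i (fun x => a * f x) = fun x => a * pd i f x := by
  funext x
  simp only [pd]
  have h2 : fderiv ℝ (fun x => a * f x) x = a • fderiv ℝ f x := by
    rw [fderiv_const_mul (hf x)]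
  rw [h2]; rfl

theorem pd_mul (i : Fin n) {f g : E n → ℝ} (hf : Differentiable ℝ f) (hg : Differentiable ℝ g) :
    pd i (fun x => f x * g x) = fun x => pd i f x * g x + f x * pd i g x := by
  funext x
  simp only [pd]
  have h2 : fderiv ℝ (fun x => f x * g x) x = f x • fderiv ℝ g x + g x • fderiv ℝ f x :=
    fderiv_fun_mul (hf x) (hg x)
  rw [h2]
  simp only [_root_.add_apply, smul_apply, smul_eq_mul]
  ring

theorem pd_sum {ι : Type*} (s : Finset ι) (i : Fin n) {f : ι → E n → ℝ}
    (hf : ∀ a ∈ s, Differentiable ℝ (f a)) :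
    pd i (fun x => ∑ a ∈ s, f a x) = fun x => ∑ a ∈ s, pd i (f a) x := by
  funext x
  simp only [pd]
  have h2 : fderiv ℝ (fun x => ∑ a ∈ s, f a x) x = ∑ a ∈ s, fderiv ℝ (f a) x :=
    fderiv_fun_sum fun a ha => (hf a ha) x
  rw [h2, _root_.sum_apply]

theorem contDiff_pd (i : Fin n) {k : ℕ} {f : E n → ℝ} (hf : ContDiff ℝ (k + 1 : ℕ) f) :
    ContDiff ℝ k (pd i f) := by
  have h1 : ContDiff ℝ k (fderiv ℝ f) := by
    apply hf.fderiv_right
    push_cast
    exact le_rfl
  exact h1.clm_apply contDiff_const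

theorem differentiable_of_two {f : E n → ℝ} (hf : ContDiff ℝ 2 f) : Differentiable ℝ f :=
  hf.differentiable (by norm_num)

theorem contDiff_pd_of_two (i : Fin n) {f : E n → ℝ} (hf : ContDiff ℝ 2 f) :
    ContDiff ℝ 1 (pd i f) := by
  have := contDiff_pd (n := n) i (k := 1) (f := f) (by simpa using hf)
  simpa using this

theorem pd_comm {f : E n → ℝ} (hf : ContDiff ℝ 2 f) (i j : Fin n) :
    pd i (pd j f) = pd j (pd i f) := by
  funext x
  have h1 : DifferentiableAt ℝ (fderiv ℝ f) x := by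
    have h := hf.fderiv_right (m := 1) (by norm_num)
    exact (h.differentiable (by norm_num)) x
  have key : ∀ a b : Fin n, pd a (pd b f) x
      = fderiv ℝ (fderiv ℝ f) x (EuclideanSpace.single a (1 : ℝ))
        (EuclideanSpace.single b (1 : ℝ)) := by
    intro a b
    have h2 : HasFDerivAt (fun y => fderiv ℝ f y (EuclideanSpace.single b (1 : ℝ)))
        ((fderiv ℝ (fderiv ℝ f) x).flip (EuclideanSpace.single b (1 : ℝ))) x := by
      have := h1.hasFDerivAt.clm_apply (hasFDerivAt_const (EuclideanSpace.single b (1 : ℝ)) x)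
      refine this.congr_fderiv ?_
      ext v
      simp
    have h3 : fderiv ℝ (pd b f) x
        = (fderiv ℝ (fderiv ℝ f) x).flip (EuclideanSpace.single b (1 : ℝ)) := h2.fderiv
    show fderiv ℝ (pd b f) x (EuclideanSpace.single a (1 : ℝ)) = _
    rw [h3]
    rfl
  rw [key i j, key j i]
  have hs : IsSymmSndFDerivAt ℝ f x := by
    apply hf.contDiffAt.isSymmSndFDerivAt
    simp
  exact hs.eq _ _

theorem pd_pd_comm3 {f : E n → ℝ} (hf : ContDiff ℝ 3 f) (e i j : Fin n) :
    pd e (pd i (pd j f)) = pd i (pd j (pd e f)) := by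
  have h2 : ContDiff ℝ 2 f := hf.of_le (by norm_num)
  have hj : ContDiff ℝ 2 (pd j f) := by
    have := contDiff_pd (n := n) j (k := 2) (f := f) (by simpa using hf)
    simpa using this
  rw [pd_comm hj e i, pd_comm h2 e j]

/-- The differential in terms of the partial derivatives. -/
theorem fderiv_apply_eq {f : E n → ℝ} (x v : E n) :
    fderiv ℝ f x v = ∑ i, v i * pd i f x := by
  have hv : v = ∑ i, v i • EuclideanSpace.single i (1 : ℝ) := by
    ext j
    simp [Finset.sum_apply, Pi.single_apply]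
  conv_lhs => rw [hv]
  rw [map_sum]
  refine Finset.sum_congr rfl fun i _ => ?_
  rw [map_smul, smul_eq_mul]
  rfl

theorem eul_eq {f : E n → ℝ} (x : E n) : eul f x = ∑ i, x i * pd i f x :=
  fderiv_apply_eq x x

theorem abs_coord_le (x : E n) (i : Fin n) : |x i| ≤ ‖x‖ := by
  have := PiLp.norm_apply_le x i
  simpa [Real.norm_eq_abs] using this

theorem norm_fderiv_le {f : E n → ℝ} {x : E n} {B : ℝ} (hB : ∀ i, |pd i f x| ≤ B) :
    ‖fderiv ℝ f x‖ ≤ n * B := by
  rcases Nat.eq_zero_or_pos n with h0 | hpos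
  · subst h0
    have : fderiv ℝ f x = 0 := by
      ext v
      rw [fderiv_apply_eq]
      simp
    rw [this]
    simp
  · have hB0 : 0 ≤ B := le_trans (abs_nonneg _) (hB ⟨0, hpos⟩)
    refine ContinuousLinearMap.opNorm_le_bound _ (by positivity) fun v => ?_
    rw [fderiv_apply_eq, Real.norm_eq_abs]
    calc |∑ i, v i * pd i f x| ≤ ∑ i, |v i * pd i f x| := Finset.abs_sum_le_sum_abs _ _
      _ ≤ ∑ _i : Fin n, B * ‖v‖ := by
          refine Finset.sum_le_sum fun i _ => ?_
          rw [abs_mul, mul_comm]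
          exact mul_le_mul (hB i) (abs_coord_le v i) (abs_nonneg _) hB0
      _ = n * B * ‖v‖ := by simp; ring

/-- Mean value inequality from bounds of the partial derivatives on a ball. -/
theorem mean_le {f : E n → ℝ} (hf : Differentiable ℝ f) {R B : ℝ}
    (hB : ∀ x ∈ closedBall (0 : E n) R, ∀ i, |pd i f x| ≤ B)
    {x : E n} (hx : x ∈ closedBall (0 : E n) R) (hR : 0 ≤ R) :
    |f x - f 0| ≤ n * B * R := by
  have h0 : (0 : E n) ∈ closedBall (0 : E n) R := by simp [hR]
  have := (convex_closedBall (0 : E n) R).norm_image_sub_le_of_norm_fderiv_le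
    (f := f) (C := n * B) (fun y _ => hf y) (fun y hy => norm_fderiv_le (hB y hy)) h0 hx
  rw [Real.norm_eq_abs, sub_zero] at this
  refine this.trans ?_
  have hxR : ‖x‖ ≤ R := by simpa using hx
  have hnB : 0 ≤ n * B := le_trans (norm_nonneg _) (norm_fderiv_le (hB x hx))
  exact mul_le_mul_of_nonneg_left hxR hnB

/-! ### `H0` -/

theorem h0_nonneg {K : ℝ} {f : E n → ℝ} (h : H0 K f) : 0 ≤ K :=
  le_trans (abs_nonneg _) (h.1 0)

theorem h0_mono {K L : ℝ} {f : E n → ℝ} (h : H0 K f) (hKL : K ≤ L) : H0 L f :=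
  ⟨fun x => (h.1 x).trans hKL, fun x y =>
    (h.2 x y).trans (mul_le_mul_of_nonneg_right hKL (Real.sqrt_nonneg _))⟩

theorem h0_add {K L : ℝ} {f g : E n → ℝ} (hf : H0 K f) (hg : H0 L g) :
    H0 (K + L) (fun x => f x + g x) := by
  refine ⟨fun x => (abs_add_le _ _).trans (add_le_add (hf.1 x) (hg.1 x)), fun x y => ?_⟩
  have : f x + g x - (f y + g y) = (f x - f y) + (g x - g y) := by ring
  rw [this, add_mul]
  exact (abs_add_le _ _).trans (add_le_add (hf.2 x y) (hg.2 x y))

theorem h0_neg {K : ℝ} {f : E n → ℝ} (hf : H0 K f) : H0 K (fun x => - f x) := by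
  refine ⟨fun x => by rw [abs_neg]; exact hf.1 x, fun x y => ?_⟩
  have : - f x - - f y = -(f x - f y) := by ring
  rw [this, abs_neg]
  exact hf.2 x y

theorem h0_mul {K L : ℝ} {f g : E n → ℝ} (hf : H0 K f) (hg : H0 L g) :
    H0 (2 * (K * L)) (fun x => f x * g x) := by
  have hK := h0_nonneg hf
  have hL := h0_nonneg hg
  refine ⟨fun x => ?_, fun x y => ?_⟩
  · rw [abs_mul]
    have := mul_le_mul (hf.1 x) (hg.1 x) (abs_nonneg _) hK
    nlinarith [mul_nonneg hK hL]
  · have e : f x * g x - f y * g y = f x * (g x - g y) + (f x - f y) * g y := by ring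
    rw [e]
    have h1 : |f x * (g x - g y)| ≤ K * (L * Real.sqrt (dist x y)) := by
      rw [abs_mul]
      exact mul_le_mul (hf.1 x) (hg.2 x y) (abs_nonneg _) hK
    have h2 : |(f x - f y) * g y| ≤ (K * Real.sqrt (dist x y)) * L := by
      rw [abs_mul]
      exact mul_le_mul (hf.2 x y) (hg.1 y) (abs_nonneg _) (by positivity)
    calc _ ≤ _ := abs_add_le _ _
      _ ≤ K * (L * Real.sqrt (dist x y)) + (K * Real.sqrt (dist x y)) * L := add_le_add h1 h2
      _ = 2 * (K * L) * Real.sqrt (dist x y) := by ring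

theorem h0_sum {ι : Type*} (s : Finset ι) {K : ℝ} {f : ι → E n → ℝ}
    (hf : ∀ a ∈ s, H0 K (f a)) : H0 (s.card * K) (fun x => ∑ a ∈ s, f a x) := by
  classical
  induction s using Finset.induction_on with
  | empty => simp [H0]
  | insert a s ha ih =>
    have h1 := hf a (Finset.mem_insert_self a s)
    have h2 := ih fun b hb => hf b (Finset.mem_insert_of_mem hb)
    have h3 := h0_add h1 h2
    have e1 : (fun x => ∑ b ∈ insert a s, f b x) = fun x => f a x + ∑ b ∈ s, f b x := by
      funext x; rw [Finset.sum_insert ha]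
    rw [e1, Finset.card_insert_of_notMem ha]
    refine h0_mono h3 (le_of_eq ?_)
    push_cast; ring

/-! ### `HB` -/

theorem pdl_append_singleton (l : List (Fin n)) (i : Fin n) (f : E n → ℝ) :
    pdl (l ++ [i]) f = pdl l (pd i f) := by
  induction l with
  | nil => rfl
  | cons a l ih => simp only [List.cons_append, pdl, ih]

theorem HB_zero_iff {K : ℝ} {f : E n → ℝ} : HB 0 K f ↔ Continuous f ∧ H0 K f := by
  constructor
  · intro h
    exact ⟨h.1.continuous, h.2 [] (by simp)⟩
  · intro h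
    refine ⟨by simpa [contDiff_zero] using h.1, fun l hl => ?_⟩
    have : l = [] := List.length_eq_zero_iff.mp (by omega)
    subst this
    exact h.2

theorem HB_succ {k : ℕ} {K : ℝ} {f : E n → ℝ} (h : HB (k + 1) K f) :
    ContDiff ℝ (k + 1 : ℕ) f ∧ H0 K f ∧ ∀ i, HB k K (pd i f) := by
  refine ⟨h.1, h.2 [] (by simp), fun i => ⟨contDiff_pd i h.1, fun l hl => ?_⟩⟩
  rw [← pdl_append_singleton]
  exact h.2 _ (by simpa using hl)

theorem HB_of_succ {k : ℕ} {K : ℝ} {f : E n → ℝ} (h1 : ContDiff ℝ (k + 1 : ℕ) f)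
    (h2 : H0 K f) (h3 : ∀ i, HB k K (pd i f)) : HB (k + 1) K f := by
  refine ⟨h1, fun l hl => ?_⟩
  rcases List.eq_nil_or_concat l with h | ⟨l', i, h⟩
  · subst h; exact h2
  · subst h
    rw [List.concat_eq_append, pdl_append_singleton]
    refine (h3 i).2 l' ?_
    simp at hl
    omega

theorem hb_mono {k : ℕ} {K L : ℝ} {f : E n → ℝ} (h : HB k K f) (hKL : K ≤ L) : HB k L f :=
  ⟨h.1, fun l hl => h0_mono (h.2 l hl) hKL⟩

theorem hb_of_le {k m : ℕ} {K : ℝ} {f : E n → ℝ} (h : HB k K f) (hmk : m ≤ k) : HB m K f :=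
  ⟨h.1.of_le (by exact_mod_cast hmk), fun l hl => h.2 l (hl.trans hmk)⟩

theorem hb_h0 {k : ℕ} {K : ℝ} {f : E n → ℝ} (h : HB k K f) : H0 K f := h.2 [] (by simp)

theorem hb_nonneg {k : ℕ} {K : ℝ} {f : E n → ℝ} (h : HB k K f) : 0 ≤ K := h0_nonneg (h.2 [] (by simp))

theorem hb_add {k : ℕ} : ∀ {K L : ℝ} {f g : E n → ℝ}, HB k K f → HB k L g →
    HB k (K + L) (fun x => f x + g x) := by
  induction k with
  | zero =>
    intro K L f g hf hg
    rw [HB_zero_iff] at hf hg ⊢
    exact ⟨hf.1.add hg.1, h0_add hf.2 hg.2⟩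
  | succ k ih =>
    intro K L f g hf hg
    obtain ⟨f1, f2, f3⟩ := HB_succ hf
    obtain ⟨g1, g2, g3⟩ := HB_succ hg
    refine HB_of_succ (f1.add g1) (h0_add f2 g2) fun i => ?_
    have df : Differentiable ℝ f := f1.differentiable (by simp)
    have dg : Differentiable ℝ g := g1.differentiable (by simp)
    rw [pd_add i df dg]
    exact ih (f3 i) (g3 i)

theorem hb_neg {k : ℕ} : ∀ {K : ℝ} {f : E n → ℝ}, HB k K f →
    HB k K (fun x => - f x) := by
  induction k with
  | zero =>
    intro K f hf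
    rw [HB_zero_iff] at hf ⊢
    exact ⟨hf.1.neg, h0_neg hf.2⟩
  | succ k ih =>
    intro K f hf
    obtain ⟨f1, f2, f3⟩ := HB_succ hf
    refine HB_of_succ f1.neg (h0_neg f2) fun i => ?_
    rw [pd_neg i]
    exact ih (f3 i)

theorem hb_mul {k : ℕ} : ∀ {K L : ℝ} {f g : E n → ℝ}, HB k K f → HB k L g →
    HB k (2 ^ (k + 1) * (K * L)) (fun x => f x * g x) := by
  induction k with
  | zero =>
    intro K L f g hf hg
    rw [HB_zero_iff] at hf hg ⊢
    refine ⟨hf.1.mul hg.1, ?_⟩
    simpa using h0_mul hf.2 hg.2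
  | succ k ih =>
    intro K L f g hf hg
    obtain ⟨f1, f2, f3⟩ := HB_succ hf
    obtain ⟨g1, g2, g3⟩ := HB_succ hg
    have hK := h0_nonneg f2
    have hL := h0_nonneg g2
    have hKL : 0 ≤ K * L := mul_nonneg hK hL
    refine HB_of_succ (f1.mul g1) (h0_mono (h0_mul f2 g2) ?_) fun i => ?_
    · have : (2 : ℝ) ≤ 2 ^ (k + 1 + 1) := by
        calc (2 : ℝ) = 2 ^ 1 := by norm_num
          _ ≤ 2 ^ (k + 1 + 1) := pow_le_pow_right₀ (by norm_num) (by omega)
      exact mul_le_mul_of_nonneg_right this hKL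
    · have df : Differentiable ℝ f := f1.differentiable (by simp)
      have dg : Differentiable ℝ g := g1.differentiable (by simp)
      rw [pd_mul i df dg]
      have h1 := ih (f3 i) (hb_of_le hg (Nat.le_succ k))
      have h2 := ih (hb_of_le hf (Nat.le_succ k)) (g3 i)
      refine hb_mono (hb_add h1 h2) (le_of_eq ?_)
      rw [pow_succ 2 (k + 1)]
      ring

theorem hb_sum {ι : Type*} {k : ℕ} (s : Finset ι) {K : ℝ} {f : ι → E n → ℝ}
    (hf : ∀ a ∈ s, HB k K (f a)) : HB k (s.card * K) (fun x => ∑ a ∈ s, f a x) := by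
  classical
  induction s using Finset.induction_on with
  | empty =>
    have hz : ∀ l : List (Fin n), pdl l (fun _ : E n => (0 : ℝ)) = fun _ => 0 := by
      intro l
      induction l with
      | nil => rfl
      | cons a l ih =>
        simp only [pdl, ih]
        funext x
        simp [pd]
    simp only [Finset.sum_empty, Finset.card_empty, Nat.cast_zero, zero_mul]
    refine ⟨contDiff_const, fun l _ => ?_⟩
    rw [hz l]
    simp [H0]
  | insert a s ha ih =>
    have h1 := hf a (Finset.mem_insert_self a s)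
    have h2 := ih fun b hb => hf b (Finset.mem_insert_of_mem hb)
    have h3 := hb_add h1 h2
    have e1 : (fun x => ∑ b ∈ insert a s, f b x) = fun x => f a x + ∑ b ∈ s, f b x := by
      funext x; rw [Finset.sum_insert ha]
    rw [e1, Finset.card_insert_of_notMem ha]
    refine hb_mono h3 (le_of_eq ?_)
    push_cast; ring

end B3

end CM
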