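import Pool.Agent.Helper44.CM.Defs

/-!
# Project MM, block B3: the estimate with variable coefficients (statements)

Rows: CUT, LOC, FAR, UNI, INT1, ABSB, UNI', INT2, LEVEL, EVEN.
All statements are `Prop`-valued definitions, so that a row is a theorem `row : Stmt`.
-/

open MeasureTheory Metric

namespace CM

variable {n : ℕ}

/-- Coefficient matrices: symmetric, `c ≤ τ ≤ C`, entries `H0 K`, decay to the identity. -/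
structure TOK (c C K : ℝ) (τ : E n → Mt n) : Prop where
  sym : ∀ x i j, τ x i j = τ x j i
  lo : ∀ x, LB c (τ x)
  up : ∀ x, UB C (τ x)
  bd : ∀ i j, H0 K (fun x => τ x i j)
  far : ∀ x i j, |τ x i j - (1 : Mt n) i j| ≤ K / Real.sqrt (1 + ‖x‖)
  lip : ∀ x y i j, |τ x i j - τ y i j| ≤ K * dist x y

/-- Bounds for `u`, `Du`, `D²u` at a point. -/
def J2 (u : E n → ℝ) (x : E n) (B : ℝ) : Prop :=
  |u x| ≤ B ∧ (∀ i, |pd i u x| ≤ B) ∧ ∀ i j, |pd i (pd j u) x| ≤ B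

/-- Bounds for `u`, `Du` at a point. -/
def J1 (u : E n → ℝ) (x : E n) (B : ℝ) : Prop :=
  |u x| ≤ B ∧ ∀ i, |pd i u x| ≤ B

/-- `H0 K` on a set. -/
def H0on (s : Set (E n)) (K : ℝ) (f : E n → ℝ) : Prop :=
  (∀ x ∈ s, |f x| ≤ K) ∧ ∀ x ∈ s, ∀ y ∈ s, |f x - f y| ≤ K * Real.sqrt (dist x y)

/-- INPUT (helper32): the constant coefficient estimate. -/
def BE0 (n : ℕ) : Prop :=
  ∀ c C κ : ℝ, 0 < c → κ ≤ 1 → ∃ K : ℝ, 0 ≤ K ∧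
    ∀ τ₀ : Mt n, (∀ i j, τ₀ i j = τ₀ j i) → LB c τ₀ → UB C τ₀ →
    ∀ w : E n → ℝ, ContDiff ℝ 2 w → (∃ M, ∀ x i j, |pd i (pd j w) x| ≤ M) →
    ∀ N : ℝ, 0 ≤ N →
      (∀ x y, |AK (fun _ => τ₀) κ w x - AK (fun _ => τ₀) κ w y| ≤ N * Real.sqrt (dist x y)) →
      ∀ i j, H0 (K * N) (pd i (pd j w))

/-- ROW CUT: a smooth cut-off function with all the scaled bounds. -/
def StCUT (n : ℕ) : Prop :=
  ∃ (χ : E n → ℝ) (K : ℝ), 0 ≤ K ∧ ContDiff ℝ ((⊤ : ℕ∞) : WithTop ℕ∞) χ ∧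
    (∀ x, 0 ≤ χ x ∧ χ x ≤ 1) ∧
    (∀ x, ‖x‖ ≤ 1 → χ x = 1) ∧ (∀ x, 2 ≤ ‖x‖ → χ x = 0) ∧
    H0 K χ ∧ (∀ i, H0 K (pd i χ)) ∧ (∀ i j, H0 K (pd i (pd j χ)))

/-- ROW LOC: the local estimate, radius `2 r` to radius `r`. -/
def StLOC (n : ℕ) : Prop :=
  ∀ c C K κ : ℝ, 0 < c → κ ≤ 1 → ∃ r A : ℝ, 0 < r ∧ r ≤ 1 ∧ 0 ≤ A ∧
    ∀ τ : E n → Mt n, TOK c C K τ →
    ∀ (x₀ : E n) (u : E n → ℝ), ContDiff ℝ 2 u → (∃ M, ∀ i j, H0 M (pd i (pd j u))) →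
    ∀ N B : ℝ, 0 ≤ N → 0 ≤ B → H0on (closedBall x₀ (2 * r)) N (AK τ κ u) →
      (∀ x ∈ closedBall x₀ (2 * r), J2 u x B) →
      ∀ i j, ∀ x ∈ closedBall x₀ r, ∀ y ∈ closedBall x₀ r,
        |pd i (pd j u) x - pd i (pd j u) y| ≤ A * (1 + ‖x₀‖) * (N + B) * Real.sqrt (dist x y)

/-- ROW FAR: the far field estimate. -/
def StFAR (n : ℕ) : Prop :=
  ∀ c C K κ : ℝ, 0 < c → κ ≤ 1 → ∃ R A : ℝ, 1 ≤ R ∧ 0 ≤ A ∧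
    ∀ τ : E n → Mt n, TOK c C K τ →
    ∀ u : E n → ℝ, ContDiff ℝ 2 u → (∃ M, ∀ i j, H0 M (pd i (pd j u))) →
    ∀ N B : ℝ, 0 ≤ N → 0 ≤ B → H0 N (AK τ κ u) →
      (∀ x ∈ closedBall (0 : E n) (2 * R), J2 u x B) →
      ∀ i j, H0on {x | 2 * R ≤ ‖x‖} (A * (N + B)) (pd i (pd j u))

/-- ROW UNI: the uniform estimate with the lower order term `J2`. -/
def StUNI (n : ℕ) : Prop :=
  ∀ c C K κ : ℝ, 0 < c → κ ≤ 1 → ∃ R A : ℝ, 1 ≤ R ∧ 0 ≤ A ∧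
    ∀ τ : E n → Mt n, TOK c C K τ →
    ∀ u : E n → ℝ, ContDiff ℝ 2 u → (∃ M, ∀ i j, H0 M (pd i (pd j u))) →
    ∀ N B : ℝ, 0 ≤ N → 0 ≤ B → H0 N (AK τ κ u) →
      (∀ x ∈ closedBall (0 : E n) R, J2 u x B) →
      ∀ i j, H0 (A * (N + B)) (pd i (pd j u))

/-- ROW INT1: interpolation of the gradient. -/
def StINT1 (n : ℕ) : Prop :=
  ∀ ε : ℝ, 0 < ε → ∃ A : ℝ, 0 ≤ A ∧
    ∀ (g : E n → ℝ) (x : E n) (H B : ℝ), ContDiff ℝ 1 g → 0 ≤ H → 0 ≤ B →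
      (∀ i, ∀ y ∈ closedBall x 1, |pd i g x - pd i g y| ≤ H * Real.sqrt (dist x y)) →
      (∀ y ∈ closedBall x 1, |g y| ≤ B) →
      ∀ i, |pd i g x| ≤ ε * H + A * B

/-- ROW INT2: interpolation between the Hölder constant and `L²`. -/
def StINT2 (n : ℕ) : Prop :=
  ∀ ε : ℝ, 0 < ε → ∃ A : ℝ, 0 ≤ A ∧
    ∀ (g : E n → ℝ) (x : E n) (H B : ℝ), Continuous g → 0 ≤ H → 0 ≤ B →
      (∀ y ∈ closedBall x 1, |g x - g y| ≤ H * Real.sqrt (dist x y)) →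
      (∫ y in closedBall x 1, g y ^ 2) ≤ B ^ 2 →
      |g x| ≤ ε * H + A * B

/-- ROW UNI': the uniform estimate with the lower order term `J1`. -/
def StUNI' (n : ℕ) : Prop :=
  ∀ c C K κ : ℝ, 0 < c → κ ≤ 1 → ∃ R A : ℝ, 1 ≤ R ∧ 0 ≤ A ∧
    ∀ τ : E n → Mt n, TOK c C K τ →
    ∀ u : E n → ℝ, ContDiff ℝ 2 u → (∃ M, ∀ i j, H0 M (pd i (pd j u))) →
    ∀ N B : ℝ, 0 ≤ N → 0 ≤ B → H0 N (AK τ κ u) →
      (∀ x ∈ closedBall (0 : E n) R, J1 u x B) →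
      ∀ i j, H0 (A * (N + B)) (pd i (pd j u))

/-- ROW LEVEL: the uniform estimate at level `k`. -/
def StLEVEL (n : ℕ) : Prop :=
  ∀ (k : ℕ) (c C K κ : ℝ), 0 < c → κ ≤ 1 → ∃ R A : ℝ, 1 ≤ R ∧ 0 ≤ A ∧
    ∀ τ : E n → Mt n, TOK c C K τ → (∀ i j, HB k K (fun x => τ x i j)) →
    ∀ u : E n → ℝ, (∃ M, H2 k M u) →
    ∀ N B : ℝ, 0 ≤ N → 0 ≤ B → HB k N (AK τ κ u) →
      (∀ x ∈ closedBall (0 : E n) R, J1 u x B) →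
      H2 k (A * (N + B)) u

/-- The `L²` input (block B4), in the form of `ST_L2`. -/
def L2in (C : ℝ) (τ : E n → Mt n) : Prop :=
  ∀ (u r : E n → ℝ) (M N : ℝ), IsEv u → H2 3 M u → (∀ x, AK τ 1 u x = r x) →
    (∀ x, |r x| ≤ N) →
    Integrable (fun x : E n => (∑ i, ∑ j, (pd i (pd j u) x) ^ 2) * Real.exp (- qn x)) ∧
    ∫ x : E n, (∑ i, ∑ j, (pd i (pd j u) x) ^ 2) * Real.exp (- qn x) ≤ C * N ^ 2

/-- ROW EVEN, the output of block B3: the a priori estimate for `A - 1` on even functions. -/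
def StEVEN (n : ℕ) : Prop :=
  ∀ (c C K C₂ : ℝ), 0 < c → ∃ A : ℝ, 0 ≤ A ∧
    ∀ τ : E n → Mt n, TOK c C K τ → (∀ i j, HB 3 K (fun x => τ x i j)) → L2in C₂ τ →
    ∀ u : E n → ℝ, IsEv u → (∃ M, H2 3 M u) →
    ∀ N : ℝ, 0 ≤ N → HB 3 N (AK τ 1 u) → H2 3 (A * N) u ∧ |u 0| ≤ A * N

end CM
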