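import Pool.Agent.Helper29.MM.Even
import Pool.Agent.Helper22.MM.UNI
import Pool.Agent.Helper50.MM.RowCUT
import Pool.Agent.Helper50.MM.RowLOC
import Pool.Agent.Helper50.MM.RowFAR
import Pool.Agent.Helper35.MM.Bridge
import Pool.Agent.Helper35.MM.BrBE

/-!
# Project MM, block B3: assembly from the constant coefficient estimate
-/

namespace CM

namespace B3

theorem all_UNI' (hcore : MMB2.ST_CORE) (n : ℕ) : StUNI' n :=
  row_UNI' n
    (row_UNI n (CM50.row_LOC n (row_BE0 hcore n) (CM50.row_CUT n))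
      (CM50.row_FAR n (row_BE0 hcore n) (CM50.row_CUT n)))
    (row_INT1 n)

theorem all_LEVEL (hcore : MMB2.ST_CORE) (n : ℕ) : StLEVEL n :=
  row_LEVEL n (all_UNI' hcore n)

theorem all_EVEN (hcore : MMB2.ST_CORE) (n : ℕ) : StEVEN n :=
  row_EVEN n (all_UNI' hcore n) (row_INT2 n) (all_LEVEL hcore n)

theorem all_BE (hcore : MMB2.ST_CORE) : ST_BE := CM.H35.st_BE (all_UNI' hcore)

theorem all_HIGH (hcore : MMB2.ST_CORE) : ST_HIGH := CM.H35.high_of_level (all_LEVEL hcore)

end B3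

end CM
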