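import Pool.Agent.Helper29.MM.B3All
import Pool.Agent.Helper32.MM.CoreB2

/-!
# Project MM, block B3: closed forms
-/

namespace CM

namespace B3

theorem closed_UNI' (n : ℕ) : StUNI' n := all_UNI' MMB2.row_CORE n

theorem closed_LEVEL (n : ℕ) : StLEVEL n := all_LEVEL MMB2.row_CORE n

theorem closed_EVEN (n : ℕ) : StEVEN n := all_EVEN MMB2.row_CORE n

theorem closed_BE : ST_BE := all_BE MMB2.row_CORE

theorem closed_HIGH : ST_HIGH := all_HIGH MMB2.row_CORE

theorem closed_BE0 : ST_BE0 := CM.H35.st_BE0 MMB2.row_CORE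

end B3

end CM
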