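import Pool.Agent.Helper29.MM.Level
import Pool.Agent.Helper35.MM.Int2

/-!
# Project MM, block B3: row EVEN
-/

open MeasureTheory Metric Filter Topology

namespace CM

namespace B3

variable {n : ℕ}

theorem pd_zero_of_even {u : E n → ℝ} (hd : Differentiable ℝ u) (hu : IsEv u) (i : Fin n) :
    pd i u 0 = 0 := by
  have h1 : (fun x => u (-x)) = u := by funext x; exact hu x
  have h2 : HasFDerivAt (fun x => u (-x)) (-(fderiv ℝ u 0)) 0 := by
    have h3 : HasFDerivAt (fun x : E n => -x) (-(ContinuousLinearMap.id ℝ (E n))) 0 :=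
      (hasFDerivAt_id 0).neg
    have h4 : HasFDerivAt u (fderiv ℝ u 0) (-(0 : E n)) := by
      rw [neg_zero]; exact (hd 0).hasFDerivAt
    refine (h4.comp 0 h3).congr_fderiv ?_
    ext v
    simp
  rw [h1] at h2
  have h3 : fderiv ℝ u 0 (EuclideanSpace.single i (1 : ℝ))
      = - fderiv ℝ u 0 (EuclideanSpace.single i (1 : ℝ)) := by
    conv_lhs => rw [h2.fderiv]
    rfl
  simp only [pd]
  linarith

/-- The lower order bounds of an even function. -/
theorem even_J1 {τ : E n → Mt n} {u : E n → ℝ} {R D K N : ℝ} (hR : 0 ≤ R) (hD0 : 0 ≤ D)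
    (hK : 0 ≤ K)
    (hu : ContDiff ℝ 2 u) (hev : IsEv u) (hτ : ∀ i j, |τ 0 i j| ≤ K)
    (hN : |AK τ 1 u 0| ≤ N)
    (hD : ∀ x ∈ closedBall (0 : E n) R, ∀ i j, |pd i (pd j u) x| ≤ D) :
    |u 0| ≤ N + n ^ 2 * K * D ∧ ∀ x ∈ closedBall (0 : E n) R,
      J1 u x (N + (n ^ 2 * K + n ^ 2 * R ^ 2 + n * R) * D) := by
  have h0 : (0 : E n) ∈ closedBall (0 : E n) R := by simp [hR]
  have hu0 : |u 0| ≤ N + n ^ 2 * K * D := by
    have e1 : u 0 = - AK τ 1 u 0 - tr2 (τ 0) (hess u 0) := by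
      simp only [AK, LL, eul]
      have : fderiv ℝ u 0 (0 : E n) = 0 := map_zero _
      rw [this]
      ring
    have e2 : |tr2 (τ 0) (hess u 0)| ≤ n ^ 2 * K * D := by
      simp only [tr2, hess, Matrix.of_apply]
      calc |∑ i, ∑ j, τ 0 i j * pd i (pd j u) 0|
          ≤ ∑ i, |∑ j, τ 0 i j * pd i (pd j u) 0| := Finset.abs_sum_le_sum_abs _ _
        _ ≤ ∑ i, ∑ j, |τ 0 i j * pd i (pd j u) 0| :=
            Finset.sum_le_sum fun i _ => Finset.abs_sum_le_sum_abs _ _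
        _ ≤ ∑ _i : Fin n, ∑ _j : Fin n, K * D := by
            refine Finset.sum_le_sum fun i _ => Finset.sum_le_sum fun j _ => ?_
            rw [abs_mul]
            exact mul_le_mul (hτ i j) (hD 0 h0 i j) (abs_nonneg _) hK
        _ = n ^ 2 * K * D := by simp; ring
    rw [e1]
    calc |- AK τ 1 u 0 - tr2 (τ 0) (hess u 0)|
        ≤ |- AK τ 1 u 0| + |tr2 (τ 0) (hess u 0)| := abs_sub _ _
      _ ≤ N + n ^ 2 * K * D := by rw [abs_neg]; exact add_le_add hN e2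
  refine ⟨hu0, fun x hx => ?_⟩
  have hgrad : ∀ y ∈ closedBall (0 : E n) R, ∀ i, |pd i u y| ≤ n * D * R := by
    intro y hy i
    have hd : Differentiable ℝ (pd i u) :=
      (contDiff_pd_of_two i hu).differentiable (by norm_num)
    have := mean_le hd (R := R) (B := D) (fun z hz j => by
      exact hD z hz j i) hy hR
    rwa [pd_zero_of_even (hu.differentiable (by norm_num)) hev, sub_zero] at this
  have hval : |u x - u 0| ≤ n * (n * D * R) * R :=
    mean_le (hu.differentiable (by norm_num)) (fun y hy i => hgrad y hy i) hx hR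
  have hnR : (0 : ℝ) ≤ n * R * D := by positivity
  have hn2 : (0 : ℝ) ≤ n ^ 2 * R ^ 2 * D := by positivity
  have hn3 : (0 : ℝ) ≤ n ^ 2 * K * D := by positivity
  have hN0 : 0 ≤ N := le_trans (abs_nonneg _) hN
  refine ⟨?_, fun i => ?_⟩
  · have : |u x| ≤ |u x - u 0| + |u 0| := by
      have := abs_add_le (u x - u 0) (u 0)
      simpa using this
    calc |u x| ≤ n * (n * D * R) * R + (N + n ^ 2 * K * D) := this.trans (add_le_add hval hu0)
      _ ≤ N + (n ^ 2 * K + n ^ 2 * R ^ 2 + n * R) * D := by nlinarith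
  · refine (hgrad x hx i).trans ?_
    nlinarith

/-- The `L²` input on unit balls. -/
theorem ball_int {τ : E n → Mt n} {C₂ R M N : ℝ} (hL : L2in C₂ τ) {u : E n → ℝ} (hev : IsEv u)
    (hu : H2 3 M u) (hF : ∀ x, |AK τ 1 u x| ≤ N) {x : E n}
    (hx : x ∈ closedBall (0 : E n) R) (i j : Fin n) :
    (∫ y in closedBall x 1, (pd i (pd j u) y) ^ 2) ≤
      (Real.sqrt (|C₂| * Real.exp ((R + 1) ^ 2 / 2)) * N) ^ 2 := by
  obtain ⟨h1, h2⟩ := hL u (AK τ 1 u) M N hev hu (fun _ => rfl) hF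
  set w : E n → ℝ := fun x => (∑ i, ∑ j, (pd i (pd j u) x) ^ 2) * Real.exp (- qn x) with hw
  have hcont : ∀ a b, Continuous (pd a (pd b u)) := fun a b => (hu.2 a b).1.continuous
  have hw0 : ∀ y, 0 ≤ w y := fun y => by
    simp only [hw]
    refine mul_nonneg (Finset.sum_nonneg fun a _ => Finset.sum_nonneg fun b _ => sq_nonneg _)
      (Real.exp_pos _).le
  have hpt : ∀ y ∈ closedBall x 1,
      (pd i (pd j u) y) ^ 2 ≤ Real.exp ((R + 1) ^ 2 / 2) * w y := by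
    intro y hy
    have hyR : ‖y‖ ≤ R + 1 := by
      simp only [mem_closedBall, dist_zero_right] at hx hy
      calc ‖y‖ = ‖(y - x) + x‖ := by congr 1; abel
        _ ≤ ‖y - x‖ + ‖x‖ := norm_add_le _ _
        _ ≤ 1 + R := by rw [dist_eq_norm] at hy; linarith
        _ = R + 1 := by ring
    have h3 : 1 ≤ Real.exp ((R + 1) ^ 2 / 2) * Real.exp (- qn y) := by
      rw [← Real.exp_add]
      apply Real.one_le_exp
      simp only [qn]
      have : ‖y‖ ^ 2 ≤ (R + 1) ^ 2 := pow_le_pow_left₀ (norm_nonneg _) hyR 2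
      linarith
    have h4 : (pd i (pd j u) y) ^ 2 ≤ ∑ a, ∑ b, (pd a (pd b u) y) ^ 2 := by
      have h5 : (pd i (pd j u) y) ^ 2 ≤ ∑ b, (pd i (pd b u) y) ^ 2 :=
        Finset.single_le_sum (f := fun b => (pd i (pd b u) y) ^ 2)
          (fun b _ => sq_nonneg _) (Finset.mem_univ j)
      refine h5.trans ?_
      exact Finset.single_le_sum (f := fun a => ∑ b, (pd a (pd b u) y) ^ 2)
        (fun a _ => Finset.sum_nonneg fun b _ => sq_nonneg _) (Finset.mem_univ i)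
    have h6 : 0 ≤ ∑ a, ∑ b, (pd a (pd b u) y) ^ 2 :=
      Finset.sum_nonneg fun a _ => Finset.sum_nonneg fun b _ => sq_nonneg _
    calc (pd i (pd j u) y) ^ 2 ≤ 1 * ∑ a, ∑ b, (pd a (pd b u) y) ^ 2 := by rw [one_mul]; exact h4
      _ ≤ (Real.exp ((R + 1) ^ 2 / 2) * Real.exp (- qn y)) * ∑ a, ∑ b, (pd a (pd b u) y) ^ 2 :=
          mul_le_mul_of_nonneg_right h3 h6
      _ = Real.exp ((R + 1) ^ 2 / 2) * w y := by simp only [hw]; ring
  have hi1 : IntegrableOn (fun y => (pd i (pd j u) y) ^ 2) (closedBall x 1) :=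
    ((hcont i j).pow 2).continuousOn.integrableOn_compact (isCompact_closedBall _ _)
  have hi2 : IntegrableOn (fun y => Real.exp ((R + 1) ^ 2 / 2) * w y) (closedBall x 1) :=
    (h1.const_mul _).integrableOn
  calc (∫ y in closedBall x 1, (pd i (pd j u) y) ^ 2)
      ≤ ∫ y in closedBall x 1, Real.exp ((R + 1) ^ 2 / 2) * w y :=
        setIntegral_mono_on hi1 hi2 measurableSet_closedBall hpt
    _ ≤ ∫ y, Real.exp ((R + 1) ^ 2 / 2) * w y :=
        setIntegral_le_integral (h1.const_mul _)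
          (Filter.Eventually.of_forall fun y => mul_nonneg (Real.exp_pos _).le (hw0 y))
    _ = Real.exp ((R + 1) ^ 2 / 2) * ∫ y, w y := by rw [integral_const_mul]
    _ ≤ Real.exp ((R + 1) ^ 2 / 2) * (|C₂| * N ^ 2) := by
        refine mul_le_mul_of_nonneg_left (h2.trans ?_) (Real.exp_pos _).le
        exact mul_le_mul_of_nonneg_right (le_abs_self _) (sq_nonneg _)
    _ = (Real.sqrt (|C₂| * Real.exp ((R + 1) ^ 2 / 2)) * N) ^ 2 := by
        rw [mul_pow, Real.sq_sqrt (by positivity)]; ring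

/-- Row EVEN. -/
theorem row_EVEN (n : ℕ) (hU : StUNI' n) (hI : StINT2 n) (hLev : StLEVEL n) : StEVEN n := by
  intro c C K C₂ hc
  obtain ⟨R₀, A₀, hR₀, hA₀, H₀⟩ := hU c C K 1 hc le_rfl
  obtain ⟨R₃, A₃, hR₃, hA₃, H₃⟩ := hLev 3 c C K 1 hc le_rfl
  set R : ℝ := max R₀ R₃ with hRdef
  have hR : 0 ≤ R := le_trans (by linarith) (le_max_left R₀ R₃)
  set c₁ : ℝ := n ^ 2 * |K| + n ^ 2 * R ^ 2 + n * R with hc₁
  have hc₁0 : 0 ≤ c₁ := by positivity
  set ε : ℝ := 1 / (2 * (A₀ * c₁ + 1)) with hε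
  have hε0 : 0 < ε := by positivity
  obtain ⟨Aε, hAε, hint⟩ := hI ε hε0
  set L : ℝ := Real.sqrt (|C₂| * Real.exp ((R + 1) ^ 2 / 2)) with hL
  have hL0 : 0 ≤ L := Real.sqrt_nonneg _
  set D₀ : ℝ := A₀ * (2 + c₁ * (Aε * L)) with hD₀
  have hD₀0 : 0 ≤ D₀ := by positivity
  refine ⟨A₃ * (1 + (1 + c₁ * (2 * D₀))) + (1 + c₁ * (2 * D₀)), by positivity, ?_⟩
  intro τ hτ hτ3 hL2 u hev hu N hN hF
  obtain ⟨M, hM⟩ := hu
  have hu2 : ContDiff ℝ 2 u := hM.1.of_le (by norm_num)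
  have hK : 0 ≤ K ∨ n = 0 := by
    rcases Nat.eq_zero_or_pos n with h | h
    · right; exact h
    · left; exact h0_nonneg (hτ.bd ⟨0, h⟩ ⟨0, h⟩)
  have hτ0 : ∀ i j, |τ 0 i j| ≤ |K| := fun i j => ((hτ.bd i j).1 0).trans (le_abs_self K)
  have hF0 : H0 N (AK τ 1 u) := hF.2 [] (by simp)
  have hball₀ : closedBall (0 : E n) R₀ ⊆ closedBall 0 R :=
    closedBall_subset_closedBall (le_max_left _ _)
  have hball₃ : closedBall (0 : E n) R₃ ⊆ closedBall 0 R :=
    closedBall_subset_closedBall (le_max_right _ _)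
  have hmain : ∀ a : Fin n × Fin n, H0 (2 * (D₀ * N)) (pd a.1 (pd a.2 u)) := by
    refine absorb_h0 (f := fun a : Fin n × Fin n => pd a.1 (pd a.2 u)) (by positivity)
      ⟨M, fun a => (hM.2 a.1 a.2).2 [] (by simp)⟩ ?_
    intro S hS hSa
    have hDb : ∀ x ∈ closedBall (0 : E n) R, ∀ i j,
        |pd i (pd j u) x| ≤ ε * S + Aε * (L * N) := by
      intro x hx i j
      exact hint (pd i (pd j u)) x S (L * N) ((hM.2 i j).1.continuous) hS (by positivity)
        (fun y _ => (hSa (i, j)).2 x y) (ball_int hL2 hev hM hF0.1 hx i j)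
    obtain ⟨_, hJ⟩ := even_J1 hR (by positivity) (abs_nonneg K) hu2 hev hτ0 (hF0.1 0) hDb
    intro a
    have h1 := H₀ τ hτ u hu2 ⟨M, fun i j => (hM.2 i j).2 [] (by simp)⟩ N
      (N + c₁ * (ε * S + Aε * (L * N))) hN (by positivity) hF0
      (fun x hx => hJ x (hball₀ hx)) a.1 a.2
    refine h0_mono h1 ?_
    have h2 : A₀ * c₁ * ε ≤ 1 / 2 := by
      rw [hε, mul_one_div, div_le_iff₀ (by positivity)]
      nlinarith [mul_nonneg hA₀ hc₁0]
    have h3 : A₀ * c₁ * ε * S ≤ 1 / 2 * S := mul_le_mul_of_nonneg_right h2 hS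
    have e1 : A₀ * (N + (N + c₁ * (ε * S + Aε * (L * N)))) = A₀ * c₁ * ε * S + D₀ * N := by
      rw [hD₀]; ring
    rw [e1]
    linarith
  have hD : ∀ x ∈ closedBall (0 : E n) R, ∀ i j, |pd i (pd j u) x| ≤ 2 * (D₀ * N) :=
    fun x _ i j => (hmain (i, j)).1 x
  obtain ⟨hu0, hJ⟩ := even_J1 hR (by positivity) (abs_nonneg K) hu2 hev hτ0 (hF0.1 0) hD
  have h5 := H₃ τ hτ hτ3 u ⟨M, hM⟩ N (N + c₁ * (2 * (D₀ * N))) hN (by positivity) hF
    (fun x hx => hJ x (hball₃ hx))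
  have hfin : 0 ≤ (1 + c₁ * (2 * D₀)) * N := by positivity
  refine ⟨⟨h5.1, fun i j => hb_mono (h5.2 i j) ?_⟩, ?_⟩
  · have : A₃ * (N + (N + c₁ * (2 * (D₀ * N)))) = A₃ * (1 + (1 + c₁ * (2 * D₀))) * N := by ring
    rw [this]
    nlinarith
  · have h6 : n ^ 2 * |K| * (2 * (D₀ * N)) ≤ c₁ * (2 * (D₀ * N)) := by
      refine mul_le_mul_of_nonneg_right ?_ (by positivity)
      rw [hc₁]
      have : (0 : ℝ) ≤ n ^ 2 * R ^ 2 + n * R := by positivity
      linarith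
    have h7 : 0 ≤ A₃ * (1 + (1 + c₁ * (2 * D₀))) * N := by positivity
    calc |u 0| ≤ N + n ^ 2 * |K| * (2 * (D₀ * N)) := hu0
      _ ≤ N + c₁ * (2 * (D₀ * N)) := by linarith
      _ = (1 + c₁ * (2 * D₀)) * N := by ring
      _ ≤ _ := by nlinarith

end B3

end CM
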