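import Pool.Agent.Helper29.MM.Basic

/-!
# Project MM, block B3: absorption, UNI', LEVEL
-/

open MeasureTheory Metric Filter Topology

namespace CM

namespace B3

variable {n : ℕ}

/-- Absorption. -/
theorem absorb {P : ℝ → Prop} {D M : ℝ} (hM0 : 0 ≤ M) (h0 : P M) (hD : 0 ≤ D)
    (hstep : ∀ S, 0 ≤ S → P S → P (S / 2 + D))
    (hcl : ∀ (S : ℕ → ℝ) (L : ℝ), Tendsto S atTop (𝓝 L) → (∀ k, P (S k)) → P L) :
    P (2 * D) := by
  have hall : ∀ k : ℕ, 0 ≤ (M - 2 * D) / 2 ^ k + 2 * D ∧ P ((M - 2 * D) / 2 ^ k + 2 * D) := by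
    intro k
    induction k with
    | zero => simpa using ⟨hM0, h0⟩
    | succ k ih =>
      have e : (M - 2 * D) / 2 ^ (k + 1) + 2 * D = ((M - 2 * D) / 2 ^ k + 2 * D) / 2 + D := by
        rw [pow_succ]; field_simp; ring
      rw [e]
      exact ⟨by have := ih.1; linarith, hstep _ ih.1 ih.2⟩
  refine hcl (fun k => (M - 2 * D) / 2 ^ k + 2 * D) (2 * D) ?_ fun k => (hall k).2
  have h1 : Tendsto (fun k : ℕ => (M - 2 * D) * (1 / 2 : ℝ) ^ k) atTop (𝓝 ((M - 2 * D) * 0)) :=
    (tendsto_pow_atTop_nhds_zero_of_lt_one (by norm_num) (by norm_num)).const_mul _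
  have h2 := h1.add_const (2 * D)
  simp only [mul_zero, zero_add] at h2
  refine h2.congr fun k => ?_
  rw [one_div, inv_pow, div_eq_mul_inv]

theorem h0_limit {f : E n → ℝ} {S : ℕ → ℝ} {L : ℝ} (hS : Tendsto S atTop (𝓝 L))
    (h : ∀ k, H0 (S k) f) : H0 L f :=
  ⟨fun x => ge_of_tendsto' hS fun k => (h k).1 x,
    fun x y => ge_of_tendsto' (hS.mul_const _) fun k => (h k).2 x y⟩

/-- Absorption for a family of functions. -/
theorem absorb_h0 {ι : Type*} {f : ι → E n → ℝ} {D : ℝ} (hD : 0 ≤ D)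
    (h0 : ∃ M, ∀ a, H0 M (f a))
    (hstep : ∀ S, 0 ≤ S → (∀ a, H0 S (f a)) → ∀ a, H0 (S / 2 + D) (f a)) :
    ∀ a, H0 (2 * D) (f a) := by
  obtain ⟨M, hM⟩ := h0
  refine absorb (P := fun S => ∀ a, H0 S (f a)) (M := |M|) (abs_nonneg _)
    (fun a => h0_mono (hM a) (le_abs_self M)) hD hstep ?_
  intro S L hS h a
  exact h0_limit hS fun k => h k a

/-- Row UNI': the lower order term reduced to `u`, `Du`. -/
theorem row_UNI' (n : ℕ) (hU : StUNI n) (hI : StINT1 n) : StUNI' n := by
  intro c C K κ hc hκ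
  obtain ⟨R, A, hR, hA, H⟩ := hU c C K κ hc hκ
  obtain ⟨A₁, hA₁, hint⟩ := hI (1 / (2 * (A + 1))) (by positivity)
  refine ⟨R + 1, 2 * (A * (1 + A₁)), by linarith, by positivity, ?_⟩
  intro τ hτ u hu hM N B hN hB hF hJ i j
  have hmain : ∀ a : Fin n × Fin n,
      H0 (2 * (A * (1 + A₁) * (N + B))) (pd a.1 (pd a.2 u)) := by
    refine absorb_h0 (f := fun a : Fin n × Fin n => pd a.1 (pd a.2 u)) (by positivity) ?_ ?_
    · obtain ⟨M, hM⟩ := hM
      exact ⟨M, fun a => hM a.1 a.2⟩
    · intro S hS hSa a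
      have hJ2 : ∀ x ∈ closedBall (0 : E n) R, J2 u x (B + 1 / (2 * (A + 1)) * S + A₁ * B) := by
        intro x hx
        have hsub : closedBall x 1 ⊆ closedBall (0 : E n) (R + 1) := by
          intro y hy
          simp only [mem_closedBall, dist_zero_right] at hx hy ⊢
          calc ‖y‖ = ‖(y - x) + x‖ := by congr 1; abel
            _ ≤ ‖y - x‖ + ‖x‖ := norm_add_le _ _
            _ ≤ 1 + R := by rw [dist_eq_norm] at hy; linarith
            _ = R + 1 := by ring
        have hx1 : x ∈ closedBall (0 : E n) (R + 1) := hsub (mem_closedBall_self zero_le_one)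
        obtain ⟨j1, j2⟩ := hJ x hx1
        have hpos : 0 ≤ 1 / (2 * (A + 1)) * S + A₁ * B := by positivity
        refine ⟨by linarith, fun i => by linarith [j2 i], fun i j => ?_⟩
        have hg := hint (pd j u) x S B (contDiff_pd_of_two j hu) hS hB
          (fun i y _ => (hSa (i, j)).2 x y) (fun y hy => (hJ y (hsub hy)).2 j) i
        linarith
      have h3 := H τ hτ u hu hM N (B + 1 / (2 * (A + 1)) * S + A₁ * B) hN (by positivity) hF hJ2
        a.1 a.2
      refine h0_mono h3 ?_
      have e1 : A * (N + (B + 1 / (2 * (A + 1)) * S + A₁ * B))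
          = A * N + A * (1 + A₁) * B + (A / (A + 1)) * (S / 2) := by
        field_simp
        ring
      rw [e1]
      have h5 : A / (A + 1) ≤ 1 := by
        rw [div_le_one (by linarith)]; linarith
      have h6 : (A / (A + 1)) * (S / 2) ≤ 1 * (S / 2) :=
        mul_le_mul_of_nonneg_right h5 (by linarith)
      have h7 : A * N ≤ A * (1 + A₁) * N := by
        have : A ≤ A * (1 + A₁) := by nlinarith
        exact mul_le_mul_of_nonneg_right this hN
      linarith
  refine h0_mono (hmain (i, j)) (le_of_eq ?_)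
  ring

/-- Coordinate functions. -/
theorem pd_coord (e i : Fin n) :
    pd e (fun x : E n => x i) = fun _ => if i = e then (1 : ℝ) else 0 := by
  funext x
  have h : HasFDerivAt (fun x : E n => x i) (EuclideanSpace.proj (𝕜 := ℝ) i) x :=
    (EuclideanSpace.proj (𝕜 := ℝ) i).hasFDerivAt
  simp only [pd]
  rw [h.fderiv]
  simp

theorem differentiable_coord (i : Fin n) : Differentiable ℝ (fun x : E n => x i) :=
  (EuclideanSpace.proj (𝕜 := ℝ) i : E n →L[ℝ] ℝ).differentiable

theorem pd_eul (e : Fin n) {u : E n → ℝ} (hu : ContDiff ℝ 2 u) :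
    pd e (eul u) = fun x => eul (pd e u) x + pd e u x := by
  have h1 : eul u = fun x => ∑ i, x i * pd i u x := by
    funext x; exact eul_eq x
  have hd : ∀ i, Differentiable ℝ (pd i u) := fun i =>
    (contDiff_pd_of_two i hu).differentiable (by norm_num)
  have hd' : ∀ i, Differentiable ℝ (fun x : E n => x i * pd i u x) := fun i =>
    (differentiable_coord i).mul (hd i)
  rw [h1, pd_sum Finset.univ e (f := fun i x => x i * pd i u x) (fun i _ => hd' i)]
  funext x
  have h2 : ∀ i : Fin n, pd e (fun x : E n => x i * pd i u x) x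
      = (if i = e then (1 : ℝ) else 0) * pd i u x + x i * pd i (pd e u) x := by
    intro i
    rw [pd_mul e (differentiable_coord i) (hd i)]
    simp only
    rw [pd_coord, pd_comm hu e i]
  simp only [h2, Finset.sum_add_distrib]
  rw [eul_eq]
  simp only [ite_mul, one_mul, zero_mul, Finset.sum_ite_eq', Finset.mem_univ, if_true]
  ring

theorem differentiable_eul {u : E n → ℝ} (hu : ContDiff ℝ 2 u) : Differentiable ℝ (eul u) := by
  have h1 : eul u = fun x => ∑ i, x i * pd i u x := by
    funext x; exact eul_eq x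
  rw [h1]
  have hd : ∀ i, Differentiable ℝ (pd i u) := fun i =>
    (contDiff_pd_of_two i hu).differentiable (by norm_num)
  exact Differentiable.fun_sum fun i _ => (differentiable_coord i).mul (hd i)

/-- The differentiated equation. -/
theorem pd_AK (e : Fin n) {τ : E n → Mt n} {κ : ℝ} {u : E n → ℝ} (hu : ContDiff ℝ 3 u)
    (hτ : ∀ i j, Differentiable ℝ (fun x => τ x i j)) :
    pd e (AK τ κ u) = fun x => AK τ (κ - 1) (pd e u) x
      - ∑ i, ∑ j, pd e (fun x => τ x i j) x * pd i (pd j u) x := by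
  have hu2 : ContDiff ℝ 2 u := hu.of_le (by norm_num)
  have hd2 : ∀ i j, Differentiable ℝ (pd i (pd j u)) := by
    intro i j
    have h1 : ContDiff ℝ 2 (pd j u) := by
      have := contDiff_pd (n := n) j (k := 2) (f := u) (by simpa using hu)
      simpa using this
    exact (contDiff_pd_of_two i h1).differentiable (by norm_num)
  have hdu : Differentiable ℝ u := hu.differentiable (by norm_num)
  have hprod : ∀ i j, Differentiable ℝ (fun x => τ x i j * pd i (pd j u) x) :=
    fun i j => (hτ i j).mul (hd2 i j)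
  have hin : ∀ i, Differentiable ℝ (fun x => ∑ j, τ x i j * pd i (pd j u) x) :=
    fun i => Differentiable.fun_sum fun j _ => hprod i j
  have hS : Differentiable ℝ (fun x => ∑ i, ∑ j, τ x i j * pd i (pd j u) x) :=
    Differentiable.fun_sum fun i _ => hin i
  have hE : Differentiable ℝ (eul u) := differentiable_eul hu2
  have e0 : AK τ κ u = fun x => (- ∑ i, ∑ j, τ x i j * pd i (pd j u) x)
      + (eul u x + (-κ) * u x) := by
    funext x
    simp only [AK, LL, tr2, hess, Matrix.of_apply]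
    ring
  have hS' : Differentiable ℝ (fun x => - ∑ i, ∑ j, τ x i j * pd i (pd j u) x) := hS.neg
  have hU' : Differentiable ℝ (fun x => (-κ) * u x) := hdu.const_mul _
  have hEU : Differentiable ℝ (fun x => eul u x + (-κ) * u x) := hE.add hU'
  rw [e0, pd_add e hS' hEU, pd_add e hE hU',
    pd_neg, pd_sum Finset.univ e (f := fun i x => ∑ j, τ x i j * pd i (pd j u) x)
      (fun i _ => hin i), pd_eul e hu2, pd_const_mul e _ hdu]
  funext x
  have h3 : ∀ i, pd e (fun x => ∑ j, τ x i j * pd i (pd j u) x) x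
      = ∑ j, (pd e (fun x => τ x i j) x * pd i (pd j u) x
        + τ x i j * pd i (pd j (pd e u)) x) := by
    intro i
    rw [pd_sum Finset.univ e (f := fun j x => τ x i j * pd i (pd j u) x) (fun j _ => hprod i j)]
    refine Finset.sum_congr rfl fun j _ => ?_
    rw [pd_mul e (hτ i j) (hd2 i j), pd_pd_comm3 hu e i j]
  simp only [h3, Finset.sum_add_distrib]
  simp only [AK, LL, tr2, hess, Matrix.of_apply]
  ring

theorem h2_succ {k : ℕ} {M : ℝ} {u : E n → ℝ} (hu : H2 (k + 1) M u) (e : Fin n) :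
    H2 k M (pd e u) := by
  have h3 : ContDiff ℝ 3 u := hu.1.of_le (by norm_cast; omega)
  refine ⟨contDiff_pd e (hu.1.of_le (by norm_cast)), fun i j => ?_⟩
  rw [← pd_pd_comm3 h3 e i j]
  exact (HB_succ (hu.2 i j)).2.2 e

theorem h2_of_le {k m : ℕ} {M : ℝ} {u : E n → ℝ} (hu : H2 k M u) (hmk : m ≤ k) : H2 m M u :=
  ⟨hu.1.of_le (by exact_mod_cast Nat.add_le_add_right hmk 2), fun i j => hb_of_le (hu.2 i j) hmk⟩

/-- Row LEVEL. -/
theorem row_LEVEL (n : ℕ) (hU : StUNI' n) : StLEVEL n := by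
  intro k
  induction k with
  | zero =>
    intro c C K κ hc hκ
    obtain ⟨R, A, hR, hA, H⟩ := hU c C K κ hc hκ
    refine ⟨R, A, hR, hA, ?_⟩
    intro τ hτ _ u hu N B hN hB hF hJ
    obtain ⟨M, hM⟩ := hu
    have hu2 : ContDiff ℝ 2 u := by simpa using hM.1
    have h1 := H τ hτ u hu2 ⟨M, fun i j => (hM.2 i j).2 [] (by simp)⟩ N B hN hB
      (hF.2 [] (by simp)) hJ
    refine ⟨hM.1, fun i j => ?_⟩
    rw [HB_zero_iff]
    exact ⟨(hM.2 i j).1.continuous, h1 i j⟩
  | succ k ih =>
    intro c C K κ hc hκ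
    obtain ⟨R₁, A₁, hR₁, hA₁, H₁⟩ := ih c C K κ hc hκ
    obtain ⟨R₂, A₂, hR₂, hA₂, H₂⟩ := ih c C K (κ - 1) hc (by linarith)
    set P : ℝ := (n : ℝ) * ((n : ℝ) * (2 ^ (k + 1) * (|K| * A₁))) with hP
    have hP0 : 0 ≤ P := by positivity
    refine ⟨max R₁ R₂, A₁ + A₂ * (1 + P + A₁ + 1), le_trans hR₁ (le_max_left _ _),
      by positivity, ?_⟩
    intro τ hτ hτk u hu N B hN hB hF hJ
    obtain ⟨M, hM⟩ := hu
    have hball₁ : closedBall (0 : E n) R₁ ⊆ closedBall 0 (max R₁ R₂) :=
      closedBall_subset_closedBall (le_max_left _ _)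
    have hball₂ : closedBall (0 : E n) R₂ ⊆ closedBall 0 (max R₁ R₂) :=
      closedBall_subset_closedBall (le_max_right _ _)
    have hτk' : ∀ i j, HB k K (fun x => τ x i j) := fun i j => hb_of_le (hτk i j) (Nat.le_succ k)
    have g1 : H2 k (A₁ * (N + B)) u := H₁ τ hτ hτk' u ⟨M, h2_of_le hM (Nat.le_succ k)⟩ N B hN hB
      (hb_of_le hF (Nat.le_succ k)) fun x hx => hJ x (hball₁ hx)
    have h3 : ContDiff ℝ 3 u := hM.1.of_le (by norm_cast; omega)
    have hNB : 0 ≤ N + B := by linarith
    have hAN : 0 ≤ A₁ * (N + B) := by positivity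
    have key : ∀ e : Fin n, H2 k (A₂ * ((1 + P + A₁ + 1) * (N + B))) (pd e u) := by
      intro e
      have hdτ : ∀ i j, Differentiable ℝ (fun x => τ x i j) := fun i j =>
        (hτk i j).1.differentiable (by simp)
      have heq := pd_AK (κ := κ) e h3 hdτ
      have hF1 : HB k N (pd e (AK τ κ u)) := (HB_succ hF).2.2 e
      have hterm : ∀ i j, HB k (2 ^ (k + 1) * (|K| * (A₁ * (N + B))))
          (fun x => pd e (fun x => τ x i j) x * pd i (pd j u) x) := by
        intro i j
        have a1 : HB k |K| (pd e (fun x => τ x i j)) :=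
          hb_mono ((HB_succ (hτk i j)).2.2 e) (le_abs_self K)
        exact hb_mul a1 (g1.2 i j)
      have hsum : HB k ((n : ℝ) * ((n : ℝ) * (2 ^ (k + 1) * (|K| * (A₁ * (N + B))))))
          (fun x => ∑ i, ∑ j, pd e (fun x => τ x i j) x * pd i (pd j u) x) := by
        have h5 := hb_sum (Finset.univ : Finset (Fin n))
          (f := fun i x => ∑ j, pd e (fun x => τ x i j) x * pd i (pd j u) x)
          (K := (n : ℝ) * (2 ^ (k + 1) * (|K| * (A₁ * (N + B)))))
          (fun i _ => by
            have h6 := hb_sum (Finset.univ : Finset (Fin n))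
              (f := fun j x => pd e (fun x => τ x i j) x * pd i (pd j u) x)
              (K := 2 ^ (k + 1) * (|K| * (A₁ * (N + B)))) (fun j _ => hterm i j)
            simpa using h6)
        simpa using h5
      have hF2 : HB k (N + P * (N + B)) (AK τ (κ - 1) (pd e u)) := by
        have e1 : AK τ (κ - 1) (pd e u) = fun x => pd e (AK τ κ u) x
            + ∑ i, ∑ j, pd e (fun x => τ x i j) x * pd i (pd j u) x := by
          rw [heq]; funext x; ring
        rw [e1]
        refine hb_mono (hb_add hF1 hsum) (le_of_eq ?_)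
        rw [hP]; ring
      have hJ2 : ∀ x ∈ closedBall (0 : E n) R₂, J1 (pd e u) x (B + A₁ * (N + B)) := by
        intro x hx
        have j1 := hJ x (hball₂ hx)
        refine ⟨by linarith [j1.2 e], fun i => ?_⟩
        have := (g1.2 i e).2 [] (by simp)
        have h7 := this.1 x
        simp only [pdl] at h7
        linarith
      have h8 := H₂ τ hτ hτk' (pd e u) ⟨M, h2_succ hM e⟩ (N + P * (N + B))
        (B + A₁ * (N + B)) (by positivity) (by positivity) hF2 hJ2
      refine ⟨h8.1, fun i j => hb_mono (h8.2 i j) ?_⟩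
      refine mul_le_mul_of_nonneg_left ?_ hA₂
      nlinarith
    refine ⟨hM.1, fun i j => ?_⟩
    have hc1 : ContDiff ℝ (k + 1 : ℕ) (pd i (pd j u)) := (hM.2 i j).1
    have hPA : 0 ≤ 1 + P + A₁ + 1 := by positivity
    refine HB_of_succ hc1 (h0_mono ((g1.2 i j).2 [] (by simp)) ?_) fun e => ?_
    · have : A₁ ≤ A₁ + A₂ * (1 + P + A₁ + 1) := by nlinarith [mul_nonneg hA₂ hPA]
      exact mul_le_mul_of_nonneg_right this hNB
    · rw [pd_pd_comm3 h3 e i j]
      refine hb_mono ((key e).2 i j) ?_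
      rw [← mul_assoc]
      refine mul_le_mul_of_nonneg_right ?_ hNB
      linarith

end B3

end CM
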